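import Mathlib

/-!
List colouring of the doubled graph `G[I_2]`.
-/

namespace Pool.Agent.N703.DG

open Finset

/-- `G` is `k`-choosable: whenever every vertex is given a list of `k` colours (natural numbers),
there is a proper colouring choosing from the lists. -/
def Choosable {V : Type} (G : SimpleGraph V) (k : ℕ) : Prop :=
  ∀ L : V → Finset ℕ, (∀ v, (L v).card = k) →
    ∃ c : V → ℕ, (∀ v, c v ∈ L v) ∧ ∀ u v, G.Adj u v → c u ≠ c v

/-- The doubled graph `G[I_2]`: `(u, i)` is adjacent to `(v, j)` exactly when `u` is adjacent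
to `v` in `G`. -/
def dbl {V : Type} (G : SimpleGraph V) : SimpleGraph (V × Fin 2) where
  Adj x y := G.Adj x.1 y.1
  symm := ⟨fun _ _ h => SimpleGraph.Adj.symm h⟩
  loopless := ⟨fun _ h => G.irrefl h⟩

/-- The list-chromatic number: the least `k` for which `G` is `k`-choosable. -/
noncomputable def listChi {V : Type} (G : SimpleGraph V) : ℕ := sInf {k | Choosable G k}

/-- The set of the values `χ_ℓ(G[I_2])` over all finite `k`-choosable graphs `G`. The number
`f(k)` of the problem is its greatest element. -/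
def Val (k : ℕ) : Set ℕ :=
  {m | ∃ (V : Type) (_ : Fintype V) (G : SimpleGraph V), Choosable G k ∧ listChi (dbl G) = m}

/-- One apex joined to `ι` many disjoint copies of `G`. -/
def cone {V : Type} (ι : Type) (G : SimpleGraph V) : SimpleGraph (Option (ι × V)) where
  Adj x y := match x, y with
    | none, some _ => True
    | some _, none => True
    | some p, some q => p.1 = q.1 ∧ G.Adj p.2 q.2
    | none, none => False
  symm := ⟨by
    rintro (_ | p) (_ | q) h
    · exact h
    · trivial
    · trivial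
    · exact ⟨h.1.symm, h.2.symm⟩⟩
  loopless := ⟨by
    rintro (_ | p) h
    · exact h
    · exact G.irrefl h.2⟩

theorem Choosable.of_ge {V : Type} {G : SimpleGraph V} {k : ℕ} (h : Choosable G k)
    (L : V → Finset ℕ) (hL : ∀ v, k ≤ (L v).card) :
    ∃ c : V → ℕ, (∀ v, c v ∈ L v) ∧ ∀ u v, G.Adj u v → c u ≠ c v := by
  choose L' hL' hk using fun v => Finset.exists_subset_card_eq (hL v)
  obtain ⟨c, hc, hp⟩ := h L' hk
  exact ⟨c, fun v => hL' v (hc v), hp⟩

theorem Choosable.mono {V : Type} {G : SimpleGraph V} {k l : ℕ} (h : Choosable G k)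
    (hkl : k ≤ l) : Choosable G l :=
  fun L hL => h.of_ge L (fun v => by rw [hL v]; exact hkl)

theorem choosable_card {V : Type} [Fintype V] (G : SimpleGraph V) :
    Choosable G (Fintype.card V) := by
  classical
  intro L hL
  have key := (Finset.all_card_le_biUnion_card_iff_exists_injective L).1 (by
    intro S
    rcases S.eq_empty_or_nonempty with rfl | ⟨v, hv⟩
    · simp
    · calc S.card ≤ Fintype.card V := card_le_univ S
        _ = (L v).card := (hL v).symm
        _ ≤ _ := card_le_card (subset_biUnion_of_mem L hv))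
  obtain ⟨c, hinj, hc⟩ := key
  exact ⟨c, hc, fun u v huv h => huv.ne (hinj h)⟩

theorem listChi_gt {V : Type} [Fintype V] {G : SimpleGraph V} {t : ℕ} (h : ¬ Choosable G t) :
    t + 1 ≤ listChi G := by
  by_contra hlt
  have hmem : Choosable G (listChi G) :=
    Nat.sInf_mem (s := {k | Choosable G k}) ⟨_, choosable_card G⟩
  exact h (hmem.mono (by omega))

theorem not_choosable_pred {V : Type} {G : SimpleGraph V} (h : 0 < listChi G) :
    ¬ Choosable G (listChi G - 1) := fun hc => by
  have h1 : listChi G ≤ listChi G - 1 := Nat.sInf_le (s := {k | Choosable G k}) hc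
  omega

theorem listChi_le {V : Type} {G : SimpleGraph V} {t : ℕ} (h : Choosable G t) :
    listChi G ≤ t := Nat.sInf_le (s := {k | Choosable G k}) h

theorem choosable_cone {V : Type} {G : SimpleGraph V} {k : ℕ} (h : Choosable G k) (ι : Type) :
    Choosable (cone ι G) (k + 1) := by
  classical
  intro L hL
  obtain ⟨a, ha⟩ : (L none).Nonempty := card_pos.1 (by rw [hL]; omega)
  have h1 : ∀ i : ι, ∃ c : V → ℕ, (∀ v, c v ∈ (L (some (i, v))).erase a) ∧
      ∀ u v, G.Adj u v → c u ≠ c v := fun i => h.of_ge _ (fun v => by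
    have h2 := Finset.pred_card_le_card_erase (s := L (some (i, v))) (a := a)
    rw [hL] at h2
    omega)
  choose c hc hp using h1
  refine ⟨fun x => match x with | none => a | some p => c p.1 p.2, ?_, ?_⟩
  · rintro (_ | p)
    · exact ha
    · exact Finset.mem_of_mem_erase (hc p.1 p.2)
  · rintro (_ | p) (_ | q) hpq
    · exact absurd hpq (by intro h; exact h)
    · exact fun h => Finset.ne_of_mem_erase (hc q.1 q.2) h.symm
    · exact fun h => Finset.ne_of_mem_erase (hc p.1 p.2) h
    · obtain ⟨h2, h3⟩ := hpq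
      obtain ⟨i, u⟩ := p
      obtain ⟨j, v⟩ := q
      simp only at h2 h3
      subst h2
      exact hp i u v h3

theorem not_choosable_dbl_cone {V : Type} {G : SimpleGraph V} {t : ℕ}
    (h : ¬ Choosable (dbl G) t) :
    ¬ Choosable (dbl (cone (Fin (t + 2) × Fin (t + 2)) G)) (t + 2) := by
  classical
  intro hch
  apply h
  intro L hL
  obtain ⟨c, hc, hp⟩ := hch (fun x => match x with
    | (none, i) => if i = 0 then range (t + 2) else Ico (t + 2) (2 * (t + 2))
    | (some p, i) => insert (p.1.1 : ℕ) (insert (t + 2 + (p.1.2 : ℕ))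
        ((L (p.2, i)).map (addRightEmbedding (2 * (t + 2)))))) (by
    rintro ⟨_ | p, i⟩
    · by_cases hi : i = 0
      · simp [hi]
      · simp [hi]
        omega
    · have h1 := p.1.1.isLt
      have h2 := p.1.2.isLt
      simp only
      rw [card_insert_of_notMem, card_insert_of_notMem, card_map, hL]
      · intro hm
        rw [mem_map] at hm
        obtain ⟨y, -, hy⟩ := hm
        simp only [addRightEmbedding_apply] at hy
        omega
      · intro hm
        rw [mem_insert, mem_map] at hm
        rcases hm with hm | ⟨y, -, hy⟩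
        · omega
        · simp only [addRightEmbedding_apply] at hy
          omega)
  have c0 : c (none, 0) < t + 2 := by
    have h1 := hc (none, 0)
    simpa using h1
  have c1 : t + 2 ≤ c (none, 1) ∧ c (none, 1) < 2 * (t + 2) := by
    have h1 := hc (none, 1)
    simpa using h1
  set p : Fin (t + 2) × Fin (t + 2) :=
    (⟨c (none, 0), c0⟩, ⟨c (none, 1) - (t + 2), by omega⟩) with hpdef
  have key : ∀ x : V × Fin 2, ∃ y ∈ L x, y + 2 * (t + 2) = c (some (p, x.1), x.2) := by
    rintro ⟨v, i⟩
    have h1 := hc (some (p, v), i)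
    simp only [mem_insert, mem_map, addRightEmbedding_apply] at h1
    have n0 : c (none, 0) ≠ c (some (p, v), i) := hp (none, 0) (some (p, v), i) trivial
    have n1 : c (none, 1) ≠ c (some (p, v), i) := hp (none, 1) (some (p, v), i) trivial
    rcases h1 with h1 | h1 | ⟨y, hy, hy'⟩
    · exact absurd h1.symm (by simpa [hpdef] using n0)
    · exfalso
      apply n1
      rw [h1]
      simp only [hpdef]
      omega
    · exact ⟨y, hy, hy'⟩
  choose c' hc' hcc using key
  refine ⟨c', hc', ?_⟩
  intro u v huv heq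
  have h1 : c (some (p, u.1), u.2) ≠ c (some (p, v.1), v.2) :=
    hp (some (p, u.1), u.2) (some (p, v.1), v.2) ⟨rfl, huv⟩
  apply h1
  rw [← hcc u, ← hcc v, heq]

theorem induce_choosable {V : Type} {G : SimpleGraph V} {k : ℕ} (h : Choosable G k)
    (S : Set V) : Choosable (G.induce S) k := by
  classical
  intro L hL
  obtain ⟨c, hc, hp⟩ := h (fun v => if hv : v ∈ S then L ⟨v, hv⟩ else range k) (by
    intro v
    by_cases hv : v ∈ S
    · simp [hv, hL]
    · simp [hv])
  refine ⟨fun v => c v.1, fun v => ?_, fun u v huv => hp u.1 v.1 huv⟩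
  have h1 := hc v.1
  simpa [v.2] using h1

theorem low_degree {k : ℕ} {d : ℝ}
    (hd : ∀ (V : Type) (_ : Fintype V) (G : SimpleGraph V), Choosable G k →
      ∑ v, ((G.neighborSet v).ncard : ℝ) ≤ d * (Fintype.card V : ℝ))
    {V : Type} [Fintype V] (G : SimpleGraph V) (hG : Choosable G k)
    (S : Finset V) (hS : S.Nonempty) :
    ∃ v ∈ S, ((S : Set V) ∩ G.neighborSet v).ncard ≤ ⌊d⌋₊ := by
  classical
  by_contra hcon
  push Not at hcon
  have h1 := hd (S : Set V) inferInstance (G.induce (S : Set V)) (induce_choosable hG _)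
  have h2 : ∀ v : (S : Set V), d < (((G.induce (S : Set V)).neighborSet v).ncard : ℝ) := by
    intro v
    have h3 := hcon v.1 v.2
    have h4 : ((G.induce (S : Set V)).neighborSet v).ncard
        = ((S : Set V) ∩ G.neighborSet v.1).ncard := by
      rw [← Set.ncard_image_of_injective _ Subtype.val_injective]
      congr 1
      ext w
      constructor
      · rintro ⟨w', hw', rfl⟩
        exact ⟨w'.2, hw'⟩
      · rintro ⟨hw1, hw2⟩
        exact ⟨⟨w, hw1⟩, hw2, rfl⟩
    rw [h4]
    exact (Nat.lt_floor_add_one d).trans_le (by exact_mod_cast h3)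
  have hne : (univ : Finset (S : Set V)).Nonempty := by
    obtain ⟨v, hv⟩ := hS
    exact ⟨⟨v, by simpa using hv⟩, mem_univ _⟩
  have h5 := Finset.sum_lt_sum_of_nonempty hne (fun v _ => h2 v)
  rw [Finset.sum_const, nsmul_eq_mul, Finset.card_univ] at h5
  linarith

theorem dbl_choosable {k : ℕ} {d : ℝ}
    (hd : ∀ (V : Type) (_ : Fintype V) (G : SimpleGraph V), Choosable G k →
      ∑ v, ((G.neighborSet v).ncard : ℝ) ≤ d * (Fintype.card V : ℝ))
    {V : Type} [Fintype V] (G : SimpleGraph V) (hG : Choosable G k) :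
    Choosable (dbl G) (2 * ⌊d⌋₊ + 1) := by
  classical
  intro L hL
  have main : ∀ (n : ℕ) (S : Finset V), S.card = n → ∃ c : V × Fin 2 → ℕ,
      (∀ x, c x ∈ L x) ∧ ∀ x y : V × Fin 2, x.1 ∈ S → y.1 ∈ S → G.Adj x.1 y.1 → c x ≠ c y := by
    intro n
    induction n with
    | zero =>
      intro S hS
      rw [Finset.card_eq_zero] at hS
      subst hS
      have h1 : ∀ x, ∃ a, a ∈ L x := fun x => card_pos.1 (by rw [hL]; omega)
      choose c hc using h1
      exact ⟨c, hc, fun x y hx => absurd hx (by simp)⟩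
    | succ n ih =>
      intro S hS
      have hne : S.Nonempty := card_pos.1 (by omega)
      obtain ⟨v, hv, hdeg⟩ := low_degree hd G hG S hne
      obtain ⟨c, hc, hp⟩ := ih (S.erase v) (by rw [card_erase_of_mem hv]; omega)
      set F : Finset ℕ := ((S.filter (fun w => G.Adj v w)) ×ˢ (univ : Finset (Fin 2))).image c
        with hF
      have hFc : F.card ≤ 2 * ⌊d⌋₊ := by
        refine card_image_le.trans ?_
        rw [card_product]
        have h3 : (S.filter (fun w => G.Adj v w)).card ≤ ⌊d⌋₊ := by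
          rw [← Set.ncard_coe_finset]
          refine le_trans (le_of_eq ?_) hdeg
          congr 1
          ext w
          simp
        simp only [Finset.card_univ, Fintype.card_fin]
        omega
      have hfree : ∀ i : Fin 2, ∃ a ∈ L (v, i), a ∉ F := by
        intro i
        by_contra hcon
        push Not at hcon
        have h4 : (L (v, i)).card ≤ F.card := card_le_card hcon
        rw [hL] at h4
        omega
      choose a ha haF using hfree
      refine ⟨fun x => if x.1 = v then a x.2 else c x, ?_, ?_⟩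
      · rintro ⟨w, i⟩
        by_cases hw : w = v
        · subst hw
          simpa using ha i
        · simpa [hw] using hc (w, i)
      · rintro ⟨w, i⟩ ⟨w', j⟩ hw hw' hadj
        simp only at hw hw' hadj ⊢
        by_cases h1 : w = v
        · have h2 : w' ≠ v := fun h => G.irrefl (by rw [h1, h] at hadj; exact hadj)
          subst h1
          simp only [if_true, if_neg h2]
          intro heq
          apply haF i
          rw [heq, hF, mem_image]
          exact ⟨(w', j), by simp [hw', hadj], rfl⟩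
        · by_cases h2 : w' = v
          · subst h2
            simp only [if_true, if_neg h1]
            intro heq
            apply haF j
            rw [← heq, hF, mem_image]
            exact ⟨(w, i), by simp [hw, hadj.symm], rfl⟩
          · simp only [if_neg h1, if_neg h2]
            exact hp (w, i) (w', j) (mem_erase.2 ⟨h1, hw⟩) (mem_erase.2 ⟨h2, hw'⟩) hadj
  obtain ⟨c, hc, hp⟩ := main _ univ rfl
  exact ⟨c, hc, fun x y hxy => hp x y (mem_univ _) (mem_univ _) hxy⟩

theorem listChi_pos {V : Type} [Fintype V] [Nonempty V] (G : SimpleGraph V) :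
    0 < listChi G := by
  have h : ¬ Choosable G 0 := by
    intro h
    obtain ⟨c, hc, -⟩ := h (fun _ => ∅) (fun _ => rfl)
    have := hc (Classical.arbitrary V)
    simp at this
  have := listChi_gt h
  omega

theorem step {k : ℕ} {V : Type} [Fintype V] [Nonempty V] (G : SimpleGraph V)
    (hG : Choosable G k) :
    ∃ (W : Type) (_ : Fintype W) (_ : Nonempty W) (H : SimpleGraph W), Choosable H (k + 1) ∧
      listChi (dbl G) + 2 ≤ listChi (dbl H) := by
  have h1 := not_choosable_dbl_cone (not_choosable_pred (listChi_pos (dbl G)))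
  have h2 := listChi_pos (dbl G)
  refine ⟨_, inferInstance, ⟨none⟩, _, choosable_cone hG
    (Fin (listChi (dbl G) - 1 + 2) × Fin (listChi (dbl G) - 1 + 2)), ?_⟩
  have h3 := listChi_gt h1
  omega

theorem exists_big (k : ℕ) :
    ∃ (W : Type) (_ : Fintype W) (_ : Nonempty W) (H : SimpleGraph W), Choosable H (k + 1) ∧
      2 * k + 1 ≤ listChi (dbl H) := by
  induction k with
  | zero =>
    refine ⟨Unit, inferInstance, inferInstance, ⊥, ?_, ?_⟩
    · have := choosable_card (⊥ : SimpleGraph Unit)
      simpa using this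
    · have := listChi_pos (dbl (⊥ : SimpleGraph Unit))
      omega
  | succ k ih =>
    obtain ⟨W, hW1, hW2, H, hH, hb⟩ := ih
    obtain ⟨W', h1, h2, H', h3, h4⟩ := step H hH
    exact ⟨W', h1, h2, H', h3, by omega⟩

theorem exists_big' (k : ℕ) (hk : 1 ≤ k) :
    ∃ (W : Type) (_ : Fintype W) (_ : Nonempty W) (H : SimpleGraph W), Choosable H k ∧
      2 * k - 1 ≤ listChi (dbl H) := by
  obtain ⟨k, rfl⟩ : ∃ j, k = j + 1 := ⟨k - 1, by omega⟩
  obtain ⟨W, h1, h2, H, h3, h4⟩ := exists_big k
  exact ⟨W, h1, h2, H, h3, by omega⟩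

theorem lower (k : ℕ) (hk : 1 ≤ k) :
    (∃ (W : Type) (_ : Fintype W) (H : SimpleGraph W),
      Choosable H k ∧ 2 * k - 1 ≤ listChi (dbl H)) ∧
    ∀ (V : Type) (_ : Fintype V) (G : SimpleGraph V), Choosable G k →
      ∃ (W : Type) (_ : Fintype W) (H : SimpleGraph W),
        Choosable H (k + 1) ∧ listChi (dbl G) + 2 ≤ listChi (dbl H) := by
  refine ⟨?_, ?_⟩
  · obtain ⟨W, h1, -, H, h3, h4⟩ := exists_big' k hk
    exact ⟨W, h1, H, h3, h4⟩
  · intro V _ G hG
    rcases isEmpty_or_nonempty V with hcon | hne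
    · have h1 : Choosable (dbl G) 0 := fun L hL =>
        ⟨fun _ => 0, fun v => (hcon.false v.1).elim, fun u => (hcon.false u.1).elim⟩
      have h2 := listChi_le h1
      obtain ⟨W, h1, -, H, h3, h4⟩ := exists_big' (k + 1) (by omega)
      exact ⟨W, h1, H, h3, by omega⟩
    · obtain ⟨W, h1, -, H, h3, h4⟩ := step G hG
      exact ⟨W, h1, H, h3, h4⟩

theorem upper (k : ℕ) (d : ℝ) (hk : 1 ≤ k)
    (hd : ∀ (V : Type) (_ : Fintype V) (G : SimpleGraph V), Choosable G k →
      ∑ v, ((G.neighborSet v).ncard : ℝ) ≤ d * (Fintype.card V : ℝ)) :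
    ∃ m : ℕ, IsGreatest (Val k) m ∧ (m : ℝ) ≤ 2 * d + 1 := by
  have hd0 : 0 ≤ d := by
    have h1 := hd Unit inferInstance ⊥ ((choosable_card (⊥ : SimpleGraph Unit)).mono
      (by simpa using hk))
    have h2 : (0 : ℝ) ≤ ∑ v, (((⊥ : SimpleGraph Unit).neighborSet v).ncard : ℝ) :=
      Finset.sum_nonneg (fun _ _ => Nat.cast_nonneg _)
    have h3 : d * (Fintype.card Unit : ℝ) = d := by simp
    linarith
  have hub : ∀ m ∈ Val k, m ≤ 2 * ⌊d⌋₊ + 1 := by
    rintro m ⟨V, hV, G, hG, rfl⟩
    exact listChi_le (dbl_choosable hd G hG)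
  obtain ⟨W, h1, -, H, h3, -⟩ := exists_big' k hk
  have hne : (Val k).Nonempty := ⟨_, W, h1, H, h3, rfl⟩
  have hbdd : BddAbove (Val k) := ⟨2 * ⌊d⌋₊ + 1, fun m hm => hub m hm⟩
  refine ⟨sSup (Val k), ⟨Nat.sSup_mem hne hbdd, fun m hm => le_csSup hbdd hm⟩, ?_⟩
  have h4 := hub _ (Nat.sSup_mem hne hbdd)
  have h5 := Nat.floor_le hd0
  have h6 : ((sSup (Val k) : ℕ) : ℝ) ≤ 2 * (⌊d⌋₊ : ℝ) + 1 := by exact_mod_cast h4
  linarith

end Pool.Agent.N703.DG
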